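import Pool.Agent.H86.LK.B

/-!
# The product of the field with `zt/pw` (for LD/Lk)
-/

set_option autoImplicit false

namespace LD1

open Complex Set Filter Topology MeasureTheory EW1 EX1 ND1
open scoped ComplexConjugate ContDiff Real

/-- a sequence with a two step recursion of factor `q < 1` is summable -/
theorem Lk_two {u : ℕ → ℝ} (hu : ∀ n, 0 ≤ u n) {q : ℝ} (hq0 : 0 ≤ q) (hq : q < 1) (h : ∀ n, u (n + 3) ≤ q * u (n + 1)) :
    Summable u := by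
  obtain ⟨s, hs0, hs1, hqs⟩ : ∃ s : ℝ, 0 < s ∧ s < 1 ∧ q ≤ s ^ 2 :=
    ⟨(1 + q) / 2, by linarith, by linarith, by nlinarith [sq_nonneg (1 - q)]⟩
  obtain ⟨C, hC0, hC1, hC2⟩ : ∃ C : ℝ, 0 ≤ C ∧ u 1 ≤ C ∧ u 2 ≤ C * s := by
    refine ⟨u 1 + u 2 / s, add_nonneg (hu 1) (div_nonneg (hu 2) hs0.le), ?_, ?_⟩
    · have := div_nonneg (hu 2) hs0.le
      linarith
    · have h1 : (u 1 + u 2 / s) * s = u 1 * s + u 2 := by
        field_simp
      rw [h1]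
      have := mul_nonneg (hu 1) hs0.le
      linarith
  have hb : ∀ n, u (n + 1) ≤ C * s ^ n ∧ u (n + 2) ≤ C * s ^ (n + 1) := by
    intro n
    induction n with
    | zero => exact ⟨by simpa using hC1, by simpa using hC2⟩
    | succ n ih =>
      refine ⟨ih.2, (h n).trans ?_⟩
      calc q * u (n + 1) ≤ s ^ 2 * (C * s ^ n) := mul_le_mul hqs ih.1 (hu _) (by positivity)
        _ = C * s ^ (n + 1 + 1) := by ring
  rw [← summable_nat_add_iff 1]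
  exact Summable.of_nonneg_of_le (fun n => hu _) (fun n => (hb n).1)
    ((summable_geometric_of_lt_one hs0.le hs1).mul_left C)

theorem Lk_Psum {μ w : ℂ} (hw : w ≠ 0) (h1 : ‖μ‖ < ‖w‖ ^ 2) (a : ℝ) (γ β : ℂ) :
    Summable fun k : ℕ => ‖Pc μ a γ β k‖ * ‖w‖⁻¹ ^ k := by
  have hw0 : 0 < ‖w‖ := norm_pos_iff.2 hw
  refine Lk_two (fun k => by positivity) (q := ‖μ‖ * ‖w‖⁻¹ ^ 2) (by positivity) ?_ fun n => ?_
  · rw [inv_pow, ← div_eq_mul_inv, div_lt_one (by positivity)]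
    exact h1
  · have h2 : Pc μ a γ β (n + 3) = μ * Pc μ a γ β (n + 1) := rfl
    rw [h2, norm_mul]
    apply le_of_eq
    ring

theorem Lk_Pc {μ w : ℂ} (hw : w ≠ 0) (h1 : ‖μ‖ < ‖w‖ ^ 2) (a : ℝ) (γ β : ℂ) :
    HasSum (fun k : ℕ => Pc μ a γ β k * w⁻¹ ^ k * pw μ w) (zt μ a γ β w) := by
  have hs : Summable fun k : ℕ => Pc μ a γ β k * w⁻¹ ^ k := by
    refine Summable.of_norm ((Lk_Psum hw h1 a γ β).congr fun k => ?_)
    rw [norm_mul, norm_pow, norm_inv]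
  obtain ⟨S, hS⟩ := hs
  have h3 := (hasSum_nat_add_iff' 1).2 hS
  have h4 := (hasSum_nat_add_iff' 3).2 hS
  rw [Finset.sum_range_one] at h3
  have h5 := h3.mul_left (μ * w⁻¹ ^ 2)
  have h6 : (fun k : ℕ => Pc μ a γ β (k + 3) * w⁻¹ ^ (k + 3)) =
      fun k : ℕ => μ * w⁻¹ ^ 2 * (Pc μ a γ β (k + 1) * w⁻¹ ^ (k + 1)) := by
    funext k
    have h2 : Pc μ a γ β (k + 3) = μ * Pc μ a γ β (k + 1) := rfl
    rw [h2]
    ring
  rw [h6] at h4
  have h7 := h4.unique h5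
  simp only [Finset.sum_range_succ, Finset.sum_range_zero, zero_add, pow_zero, mul_one, pow_one] at h7
  have e0 : Pc μ a γ β 0 = a := rfl
  have e1 : Pc μ a γ β 1 = γ := rfl
  have e2 : Pc μ a γ β 2 = 2 * a * μ + β := rfl
  rw [e0, e1, e2] at h7
  have h8 : zt μ a γ β w = S * pw μ w := by
    unfold zt pw
    have h9 : S = a + γ * w⁻¹ + (2 * a * μ + β) * w⁻¹ ^ 2 + μ * w⁻¹ ^ 2 * (S - a) := by
      linear_combination h7
    have h10 : w * w⁻¹ = 1 := mul_inv_cancel₀ hw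
    linear_combination (-w) * h9 - (γ + (2 * a * μ + β) * w⁻¹ + μ * w⁻¹ * (S - a)) * h10
  rw [h8]
  exact hS.mul_right _

theorem Lk_czP {μ : ℂ} (hμ : ‖μ‖ < 1) {ρ : ℝ} (hρ : 0 < ρ) (h1 : ‖μ‖ < ρ ^ 2) (hρ1 : ρ < 1) {F : ℂ → ℂ}
    (hF : DifferentiableOn ℂ F (Dp 0 1 μ 1)) (a : ℝ) (γ β : ℂ) (n : ℕ) :
    cz ρ (fun x => zt μ a γ β x * F (zw μ x)) ((n : ℤ) + 1) = ∑' k : ℕ, Pc μ a γ β k * fc 0 1 μ F ρ (n + k + 1) := by
  have hμρ : ‖μ‖ < ρ := by nlinarith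
  have hH' : DifferentiableOn ℂ (LkE μ F) (LkA ‖μ‖) := Lk_hol hμ hF
  have hFc : Continuous fun t => F (zw μ (pr ρ t)) := by
    refine hF.continuousOn.comp_continuous ?_ fun t => Lk_mem hμ (by rw [Lk_norm hρ]; exact hμρ) (by rw [Lk_norm hρ]; exact hρ1)
    unfold zw
    exact (Lk_cont ρ).add (continuous_const.mul ((Lk_cont ρ).inv₀ (Lk_ne hρ)))
  have hEc := Lk_ccont (norm_nonneg μ) hμρ hρ1 hH'
  have hπ : (0 : ℝ) < 2 * π := by positivity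
  obtain ⟨M, hM⟩ := (isCompact_Icc (a := (0 : ℝ)) (b := 2 * π)).exists_bound_of_continuousOn
    (hEc.mul (Lk_zc hρ (-((n : ℤ) + 1)))).continuousOn
  have hsum := Lk_Psum (μ := μ) (w := pr ρ 0) (Lk_ne hρ 0) (by rw [Lk_norm hρ]; exact h1) a γ β
  rw [Lk_norm hρ] at hsum
  have key := intervalIntegral.hasSum_integral_of_dominated_convergence (μ := volume) (a := 0) (b := 2 * π)
    (F := fun (k : ℕ) (t : ℝ) => Pc μ a γ β k * (LkE μ F (pr ρ t) * pr ρ t ^ (-(((n + k + 1 : ℕ) : ℤ)))))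
    (f := fun t => zt μ a γ β (pr ρ t) * F (zw μ (pr ρ t)) * pr ρ t ^ (-((n : ℤ) + 1)))
    (fun k _ => (‖Pc μ a γ β k‖ * ρ⁻¹ ^ k) * M) ?_ ?_ ?_ ?_ ?_
  · have h3 := key.div_const (2 * (π : ℂ))
    unfold cz
    rw [← h3.tsum_eq]
    refine tsum_congr fun k => ?_
    rw [Lk_fc, intervalIntegral.integral_const_mul, mul_div_assoc]
    rfl
  · intro k
    exact (continuous_const.mul (hEc.mul (Lk_zc hρ _))).aestronglyMeasurable
  · intro k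
    refine Filter.Eventually.of_forall fun t ht => ?_
    rw [uIoc_of_le hπ.le] at ht
    have h3 := hM t ⟨ht.1.le, ht.2⟩
    have h4 : pr ρ t ^ (-(((n + k + 1 : ℕ) : ℤ))) = pr ρ t ^ (-((n : ℤ) + 1)) * (pr ρ t)⁻¹ ^ k := by
      have h5 : (-(((n + k + 1 : ℕ) : ℤ))) = -((n : ℤ) + 1) + (-(k : ℤ)) := by
        push_cast
        ring
      rw [h5, zpow_add₀ (Lk_ne hρ t), zpow_neg _ (k : ℤ), zpow_natCast, inv_pow]
    rw [h4, norm_mul]
    have h6 : LkE μ F (pr ρ t) * (pr ρ t ^ (-((n : ℤ) + 1)) * (pr ρ t)⁻¹ ^ k) =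
        (LkE μ F (pr ρ t) * pr ρ t ^ (-((n : ℤ) + 1))) * (pr ρ t)⁻¹ ^ k := by ring
    rw [h6, norm_mul, norm_pow, norm_inv, Lk_norm hρ]
    calc _ ≤ ‖Pc μ a γ β k‖ * (M * ρ⁻¹ ^ k) := by
          gcongr
          exact h3
      _ = _ := by ring
  · exact Filter.Eventually.of_forall fun t _ => hsum.mul_right M
  · exact continuous_const.intervalIntegrable _ _
  · refine Filter.Eventually.of_forall fun t _ => ?_
    have h3 := (Lk_Pc (Lk_ne hρ t) (by rw [Lk_norm hρ]; exact h1) a γ β (μ := μ)).mul_right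
      (F (zw μ (pr ρ t)) * pr ρ t ^ (-((n : ℤ) + 1)))
    have e1 : (fun k : ℕ => Pc μ a γ β k * (LkE μ F (pr ρ t) * pr ρ t ^ (-(((n + k + 1 : ℕ) : ℤ))))) =
        fun k : ℕ => Pc μ a γ β k * (pr ρ t)⁻¹ ^ k * pw μ (pr ρ t) * (F (zw μ (pr ρ t)) * pr ρ t ^ (-((n : ℤ) + 1))) := by
      funext k
      have h4 : pr ρ t ^ (-(((n + k + 1 : ℕ) : ℤ))) = pr ρ t ^ (-((n : ℤ) + 1)) * (pr ρ t)⁻¹ ^ k := by
        have h5 : (-(((n + k + 1 : ℕ) : ℤ))) = -((n : ℤ) + 1) + (-(k : ℤ)) := by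
          push_cast
          ring
        rw [h5, zpow_add₀ (Lk_ne hρ t), zpow_neg _ (k : ℤ), zpow_natCast, inv_pow]
      rw [h4]
      unfold LkE
      ring
    show HasSum (fun k : ℕ => Pc μ a γ β k * (LkE μ F (pr ρ t) * pr ρ t ^ (-(((n + k + 1 : ℕ) : ℤ)))))
      (zt μ a γ β (pr ρ t) * F (zw μ (pr ρ t)) * pr ρ t ^ (-((n : ℤ) + 1)))
    rw [e1, mul_assoc (zt μ a γ β (pr ρ t))]
    exact h3

end LD1
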