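import Pool.Agent.H1.LD.D

/-!
# Laurent series of a function on an annulus around `0`, by Fourier coefficients (for LD/Lk)
-/

set_option autoImplicit false

namespace LD1

open Complex Set Filter Topology MeasureTheory EW1 EX1 ND1
open scoped ComplexConjugate ContDiff Real

theorem Lk_norm {ρ : ℝ} (hρ : 0 < ρ) (t : ℝ) : ‖pr ρ t‖ = ρ := by
  unfold pr
  rw [norm_mul, Complex.norm_exp_ofReal_mul_I, mul_one, Complex.norm_real, Real.norm_eq_abs, abs_of_pos hρ]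

theorem Lk_ne {ρ : ℝ} (hρ : 0 < ρ) (t : ℝ) : pr ρ t ≠ 0 := by
  intro h
  have := Lk_norm hρ t
  rw [h, norm_zero] at this
  exact hρ.ne this

theorem Lk_cont (ρ : ℝ) : Continuous (pr ρ) := by
  unfold pr
  fun_prop

theorem Lk_per (ρ t : ℝ) : pr ρ (t + 2 * π) = pr ρ t := by
  unfold pr
  have h1 : (((t + 2 * π : ℝ) : ℂ) * I) = t * I + 2 * π * I := by
    push_cast
    ring
  rw [h1, Complex.exp_add, Complex.exp_two_pi_mul_I, mul_one]

/-- the annulus -/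
def LkA (m : ℝ) : Set ℂ := {w | m < ‖w‖ ∧ ‖w‖ < 1}

theorem Lk_open (m : ℝ) : IsOpen (LkA m) :=
  (isOpen_lt continuous_const continuous_norm).inter (isOpen_lt continuous_norm continuous_const)

theorem Lk_ccont {m ρ : ℝ} (hm : 0 ≤ m) (h1 : m < ρ) (h2 : ρ < 1) {H : ℂ → ℂ} (hH : DifferentiableOn ℂ H (LkA m)) :
    Continuous fun t => H (pr ρ t) := by
  have hρ : 0 < ρ := hm.trans_lt h1
  exact hH.continuousOn.comp_continuous (Lk_cont ρ) fun t => by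
    show m < ‖pr ρ t‖ ∧ ‖pr ρ t‖ < 1
    rw [Lk_norm hρ]
    exact ⟨h1, h2⟩

theorem Lk_zc {ρ : ℝ} (hρ : 0 < ρ) (n : ℤ) : Continuous fun t => pr ρ t ^ n :=
  (Lk_cont ρ).zpow₀ n fun t => Or.inl (Lk_ne hρ t)

/-- the coefficient as a circle integral -/
theorem Lk_circle {ρ : ℝ} (hρ : 0 < ρ) (H : ℂ → ℂ) (n : ℤ) :
    (∮ z in C(0, ρ), H z * z ^ (-n - 1)) = (2 * π * I) * cz ρ H n := by
  unfold cz
  have h1 : ∀ t : ℝ, deriv (circleMap 0 ρ) t • (H (circleMap 0 ρ t) * circleMap 0 ρ t ^ (-n - 1)) =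
      I * (H (pr ρ t) * pr ρ t ^ (-n)) := by
    intro t
    have h2 : circleMap 0 ρ t = pr ρ t := by
      unfold circleMap pr
      rw [zero_add]
    rw [deriv_circleMap, h2, smul_eq_mul, zpow_sub_one₀ (Lk_ne hρ t)]
    have h3 := Lk_ne hρ t
    field_simp
  have h4 : (2 * (π : ℂ)) ≠ 0 := by
    have : (π : ℂ) ≠ 0 := by exact_mod_cast Real.pi_ne_zero
    exact mul_ne_zero two_ne_zero this
  unfold circleIntegral
  rw [intervalIntegral.integral_congr (fun t _ => h1 t), intervalIntegral.integral_const_mul]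
  field_simp

theorem Lk_indep_aux {m ρ ρ' : ℝ} (hm : 0 ≤ m) (h1 : m < ρ) (h1' : ρ ≤ ρ') (h2' : ρ' < 1) {H : ℂ → ℂ}
    (hH : DifferentiableOn ℂ H (LkA m)) (n : ℤ) : cz ρ' H n = cz ρ H n := by
  have hρ : 0 < ρ := hm.trans_lt h1
  have hd : DifferentiableOn ℂ (fun z => H z * z ^ (-n - 1)) (LkA m) := by
    refine hH.mul fun z hz => ?_
    have hz0 : z ≠ 0 := by
      intro h
      have : m < ‖z‖ := hz.1
      rw [h, norm_zero] at this
      linarith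
    exact (differentiableAt_zpow.2 (Or.inl hz0)).differentiableWithinAt
  have key := Complex.circleIntegral_eq_of_differentiable_on_annulus_off_countable (c := 0) hρ h1'
    (f := fun z => H z * z ^ (-n - 1)) Set.countable_empty
    (hd.continuousOn.mono (by
      rintro z ⟨hz1, hz2⟩
      rw [Metric.mem_closedBall, dist_zero_right] at hz1
      rw [Metric.mem_ball, dist_zero_right, not_lt] at hz2
      exact ⟨h1.trans_le hz2, hz1.trans_lt h2'⟩))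
    (by
      rintro z ⟨⟨hz1, hz2⟩, -⟩
      rw [Metric.mem_ball, dist_zero_right] at hz1
      rw [Metric.mem_closedBall, dist_zero_right, not_le] at hz2
      exact hd.differentiableAt ((Lk_open m).mem_nhds ⟨h1.trans hz2, hz1.trans h2'⟩))
  rw [Lk_circle (hρ.trans_le h1'), Lk_circle hρ] at key
  exact mul_left_cancel₀ Complex.two_pi_I_ne_zero key

theorem Lk_indep {m ρ ρ' : ℝ} (hm : 0 ≤ m) (h1 : m < ρ) (h2 : ρ < 1) (h1' : m < ρ') (h2' : ρ' < 1) {H : ℂ → ℂ}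
    (hH : DifferentiableOn ℂ H (LkA m)) (n : ℤ) : cz ρ H n = cz ρ' H n := by
  rcases le_total ρ ρ' with h | h
  · exact (Lk_indep_aux hm h1 h h2' hH n).symm
  · exact Lk_indep_aux hm h1' h h2 hH n

theorem Lk_bd {m ρ : ℝ} (hm : 0 ≤ m) (h1 : m < ρ) (h2 : ρ < 1) {H : ℂ → ℂ} (hH : DifferentiableOn ℂ H (LkA m)) :
    ∃ M : ℝ, 0 ≤ M ∧ ∀ n : ℤ, ‖cz ρ H n‖ * ρ ^ n ≤ M := by
  have hρ : 0 < ρ := hm.trans_lt h1
  obtain ⟨M, hM⟩ := (isCompact_Icc (a := (0 : ℝ)) (b := 2 * π)).exists_bound_of_continuousOn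
    (Lk_ccont hm h1 h2 hH).continuousOn
  have hπ : (0 : ℝ) < 2 * π := by positivity
  have hM0 : 0 ≤ M := (norm_nonneg _).trans (hM 0 ⟨le_rfl, hπ.le⟩)
  refine ⟨M, hM0, fun n => ?_⟩
  have h3 : ‖∫ t in (0 : ℝ)..(2 * π), H (pr ρ t) * pr ρ t ^ (-n)‖ ≤ (M * ρ ^ (-n)) * |2 * π - 0| := by
    refine intervalIntegral.norm_integral_le_of_norm_le_const fun t ht => ?_
    rw [uIoc_of_le hπ.le] at ht
    rw [norm_mul, norm_zpow, Lk_norm hρ]
    exact mul_le_mul_of_nonneg_right (hM t ⟨ht.1.le, ht.2⟩) (zpow_nonneg hρ.le _)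
  have h4 : ‖(2 * π : ℂ)‖ = 2 * π := by
    rw [norm_mul, Complex.norm_real, Real.norm_eq_abs, abs_of_pos Real.pi_pos]
    norm_num
  unfold cz
  rw [norm_div, h4]
  rw [sub_zero, abs_of_pos hπ] at h3
  have h5 : 0 < ρ ^ n := zpow_pos hρ n
  rw [zpow_neg] at h3
  calc _ ≤ (M * (ρ ^ n)⁻¹ * (2 * π)) / (2 * π) * ρ ^ n := by gcongr
    _ = M := by field_simp

theorem Lk_summ {m ρ : ℝ} (hm : 0 ≤ m) (h1 : m < ρ) (h2 : ρ < 1) {H : ℂ → ℂ} (hH : DifferentiableOn ℂ H (LkA m)) :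
    Summable fun n : ℤ => ‖cz ρ H n‖ * ρ ^ n := by
  have hρ : 0 < ρ := hm.trans_lt h1
  have a1 : m < (m + ρ) / 2 := by linarith
  have a2 : (m + ρ) / 2 < ρ := by linarith
  have b1 : ρ < (ρ + 1) / 2 := by linarith
  have b2 : (ρ + 1) / 2 < 1 := by linarith
  obtain ⟨M₁, hM₁, hb₁⟩ := Lk_bd hm a1 (a2.trans h2) hH
  obtain ⟨M₂, hM₂, hb₂⟩ := Lk_bd hm (h1.trans b1) b2 hH
  set r₁ : ℝ := (m + ρ) / 2 with hr₁
  set r₂ : ℝ := (ρ + 1) / 2 with hr₂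
  have hr₁0 : 0 < r₁ := by linarith
  have hr₂0 : 0 < r₂ := by linarith
  have q₂ : ρ / r₂ < 1 := (div_lt_one hr₂0).2 b1
  have q₁ : r₁ / ρ < 1 := (div_lt_one hρ).2 a2
  refine Summable.of_nat_of_neg ?_ ?_
  · refine Summable.of_nonneg_of_le (fun n => by positivity) (fun n => ?_)
      ((summable_geometric_of_lt_one (by positivity) q₂).mul_left M₂)
    rw [Lk_indep hm h1 h2 (h1.trans b1) b2 hH]
    have h3 := hb₂ n
    rw [zpow_natCast] at h3 ⊢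
    rw [div_pow, mul_div_assoc', le_div_iff₀ (by positivity)]
    calc _ = (‖cz r₂ H n‖ * r₂ ^ n) * ρ ^ n := by ring
      _ ≤ _ := by gcongr
  · refine Summable.of_nonneg_of_le (fun n => by positivity) (fun n => ?_)
      ((summable_geometric_of_lt_one (by positivity) q₁).mul_left M₁)
    rw [Lk_indep hm h1 h2 a1 (a2.trans h2) hH]
    have h3 := hb₁ (-n)
    rw [zpow_neg, zpow_natCast] at h3 ⊢
    rw [← div_eq_mul_inv] at h3 ⊢
    rw [div_le_iff₀ (by positivity)] at h3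
    rw [div_pow, div_le_iff₀ (by positivity)]
    calc _ ≤ _ := h3
      _ = _ := by field_simp

/-- Laurent expansion -/
theorem Lk_laurent {m : ℝ} (hm : 0 ≤ m) {H : ℂ → ℂ} (hH : DifferentiableOn ℂ H (LkA m)) {ρ : ℝ} (h1 : m < ρ) (h2 : ρ < 1)
    {w : ℂ} (hw : w ∈ LkA m) : HasSum (fun n : ℤ => cz ρ H n * w ^ n) (H w) := by
  set r : ℝ := ‖w‖ with hr
  have hr1 : m < r := hw.1
  have hr2 : r < 1 := hw.2
  have hr0 : 0 < r := hm.trans_lt hr1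
  have hT : Fact (0 < 2 * π) := ⟨by positivity⟩
  have hcont := Lk_ccont hm hr1 hr2 hH
  have hper : Function.Periodic (fun t => H (pr r t)) (2 * π) := fun t => by
    show H (pr r (t + 2 * π)) = H (pr r t)
    rw [Lk_per]
  obtain ⟨f, hf⟩ : ∃ f : C(AddCircle (2 * π), ℂ), ∀ x : ℝ, f (x : AddCircle (2 * π)) = H (pr r x) :=
    ⟨⟨hper.lift, continuous_coinduced_dom.mpr hcont⟩, fun x => rfl⟩
  have h2π : ((2 * π : ℝ) : ℂ) ≠ 0 := by
    rw [Ne, Complex.ofReal_eq_zero]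
    positivity
  have hrC : (r : ℂ) ≠ 0 := by exact_mod_cast hr0.ne'
  have hco : ∀ n : ℤ, fourierCoeff (f : AddCircle (2 * π) → ℂ) n = cz r H n * (r : ℂ) ^ n := by
    intro n
    rw [fourierCoeff_eq_intervalIntegral _ n 0, zero_add]
    have h3 : ∀ x : ℝ, (fourier (-n) (x : AddCircle (2 * π)) : ℂ) • f (x : AddCircle (2 * π)) =
        (r : ℂ) ^ n * (H (pr r x) * pr r x ^ (-n)) := by
      intro x
      rw [fourier_coe_apply, hf, smul_eq_mul]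
      have h4 : pr r x ^ (-n) = ((r : ℂ) ^ n)⁻¹ * exp (2 * π * I * ((-n : ℤ) : ℂ) * x / ((2 * π : ℝ) : ℂ)) := by
        unfold pr
        rw [mul_zpow, zpow_neg, ← Complex.exp_int_mul]
        congr 2
        rw [eq_div_iff h2π]
        push_cast
        ring
      rw [h4]
      have h5 : (r : ℂ) ^ n ≠ 0 := zpow_ne_zero n hrC
      field_simp
    rw [intervalIntegral.integral_congr (fun x _ => h3 x), intervalIntegral.integral_const_mul]
    unfold cz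
    rw [Complex.real_smul]
    push_cast
    push_cast at h2π
    field_simp
  have hsum : Summable (fourierCoeff (f : AddCircle (2 * π) → ℂ)) := by
    refine Summable.of_norm ?_
    have h3 := Lk_summ hm hr1 hr2 hH
    refine h3.congr fun n => ?_
    rw [hco n, norm_mul, norm_zpow, Complex.norm_real, Real.norm_eq_abs, abs_of_pos hr0]
  have hw' : w = pr r (arg w) := by
    unfold pr
    rw [hr]
    exact (Complex.norm_mul_exp_arg_mul_I w).symm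
  have h3 := has_pointwise_sum_fourier_series_of_summable hsum ((arg w : ℝ) : AddCircle (2 * π))
  rw [hf, ← hw'] at h3
  have h4 : (fun n : ℤ => cz ρ H n * w ^ n) = fun n : ℤ => fourierCoeff (f : AddCircle (2 * π) → ℂ) n •
      (fourier n ((arg w : ℝ) : AddCircle (2 * π)) : ℂ) := by
    funext n
    rw [fourier_coe_apply, hco n, smul_eq_mul, Lk_indep hm h1 h2 hr1 hr2 hH]
    have h5 : w ^ n = (r : ℂ) ^ n * exp (2 * π * I * (n : ℂ) * (arg w : ℝ) / ((2 * π : ℝ) : ℂ)) := by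
      conv_lhs => rw [hw']
      unfold pr
      rw [mul_zpow, ← Complex.exp_int_mul]
      congr 2
      rw [eq_div_iff h2π]
      push_cast
      ring
    rw [h5]
    ring
  rw [h4]
  exact h3

/-- the field in the coordinate `w` -/
theorem Lk_mem {μ w : ℂ} (hμ : ‖μ‖ < 1) (h1 : ‖μ‖ < ‖w‖) (h2 : ‖w‖ < 1) : zw μ w ∈ Dp 0 1 μ 1 := by
  have ha0 : 0 ≤ ‖μ‖ := norm_nonneg μ
  obtain ⟨ρ, hρw⟩ : ∃ ρ : ℝ, ρ = ‖w‖ := ⟨_, rfl⟩
  rw [← hρw] at h1 h2
  have hρ : 0 < ρ := ha0.trans_lt h1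
  have hq : 0 < 1 - ‖μ‖ ^ 2 := by nlinarith
  have hw0 : w ≠ 0 := by
    intro h
    rw [h, norm_zero] at hρw
    exact hρ.ne' hρw
  have hwc : w * conj w = ((ρ ^ 2 : ℝ) : ℂ) := by
    rw [Complex.mul_conj, Complex.normSq_eq_norm_sq, hρw]
  have hρC : (ρ : ℂ) ≠ 0 := by exact_mod_cast hρ.ne'
  have hinv : w⁻¹ = conj w / ((ρ ^ 2 : ℝ) : ℂ) := by
    have hρ2C : ((ρ ^ 2 : ℝ) : ℂ) ≠ 0 := by
      push_cast
      exact pow_ne_zero 2 hρC
    rw [eq_div_iff hρ2C, ← hwc, ← mul_assoc, inv_mul_cancel₀ hw0, one_mul]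
  have hqC : ((1 - ‖μ‖ ^ 2 : ℝ) : ℂ) ≠ 0 := by exact_mod_cast hq.ne'
  have hμc : μ * conj μ = ((‖μ‖ ^ 2 : ℝ) : ℂ) := by
    rw [Complex.mul_conj, Complex.normSq_eq_norm_sq]
  have e : vv 0 1 μ (zw μ w) =
      (((1 - ‖μ‖ ^ 2 / ρ ^ 2 : ℝ) : ℂ) * w + μ * (((1 / ρ ^ 2 - 1 : ℝ) : ℂ) * conj w)) / ((1 - ‖μ‖ ^ 2 : ℝ) : ℂ) := by
    unfold vv zw
    rw [sub_zero, one_mul, hinv]
    congr 1
    simp only [map_mul, map_add, map_div₀, Complex.conj_ofReal, Complex.conj_conj]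
    push_cast
    push_cast at hμc
    field_simp
    linear_combination (-w) * hμc
  show ‖vv 0 1 μ (zw μ w)‖ < 1
  rw [e, norm_div, Complex.norm_real, Real.norm_eq_abs, abs_of_pos hq, div_lt_one hq]
  have hn1 : 0 ≤ 1 - ‖μ‖ ^ 2 / ρ ^ 2 := by
    rw [sub_nonneg, div_le_one (by positivity)]
    nlinarith
  have hn2 : 0 ≤ 1 / ρ ^ 2 - 1 := by
    rw [sub_nonneg, le_div_iff₀ (by positivity)]
    nlinarith
  have h3 : ‖((1 - ‖μ‖ ^ 2 / ρ ^ 2 : ℝ) : ℂ) * w + μ * (((1 / ρ ^ 2 - 1 : ℝ) : ℂ) * conj w)‖ ≤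
      (1 - ‖μ‖ ^ 2 / ρ ^ 2) * ρ + ‖μ‖ * ((1 / ρ ^ 2 - 1) * ρ) := by
    refine (norm_add_le _ _).trans (le_of_eq ?_)
    rw [norm_mul, norm_mul, norm_mul, RCLike.norm_conj, ← hρw, Complex.norm_real, Complex.norm_real, Real.norm_eq_abs,
      Real.norm_eq_abs, abs_of_nonneg hn1, abs_of_nonneg hn2]
  refine h3.trans_lt ?_
  have h4 : (1 - ‖μ‖ ^ 2 / ρ ^ 2) * ρ + ‖μ‖ * ((1 / ρ ^ 2 - 1) * ρ) = (ρ ^ 2 + ‖μ‖) * (1 - ‖μ‖) / ρ := by
    field_simp
    ring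
  rw [h4, div_lt_iff₀ hρ]
  have h5 : (ρ ^ 2 + ‖μ‖) * (1 - ‖μ‖) - (1 - ‖μ‖ ^ 2) * ρ = (1 - ‖μ‖) * ((ρ - 1) * (ρ - ‖μ‖)) := by ring
  have h6 : 0 < (1 - ‖μ‖) * ((1 - ρ) * (ρ - ‖μ‖)) :=
    mul_pos (by linarith) (mul_pos (by linarith) (by linarith))
  nlinarith

theorem Lk_hol {μ : ℂ} (hμ : ‖μ‖ < 1) {F : ℂ → ℂ} (hF : DifferentiableOn ℂ F (Dp 0 1 μ 1)) :
    DifferentiableOn ℂ (fun w => F (zw μ w) * pw μ w) (LkA ‖μ‖) := by
  have hw0 : ∀ w ∈ LkA ‖μ‖, w ≠ 0 := by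
    intro w hw h
    have := hw.1
    rw [h, norm_zero] at this
    linarith [norm_nonneg μ]
  have hinv : DifferentiableOn ℂ (fun w : ℂ => w⁻¹) (LkA ‖μ‖) := fun w hw =>
    (differentiableAt_inv (hw0 w hw)).differentiableWithinAt
  have hz : DifferentiableOn ℂ (zw μ) (LkA ‖μ‖) := by
    unfold zw
    exact differentiableOn_id.add (hinv.const_mul μ)
  have hp : DifferentiableOn ℂ (pw μ) (LkA ‖μ‖) := by
    unfold pw
    exact differentiableOn_id.sub (hinv.const_mul μ)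
  exact (hF.comp hz fun w hw => Lk_mem hμ hw.1 hw.2).mul hp

end LD1
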