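import Pool.Agent.H86.LK.A

/-!
# The coefficients of the field (for LD/Lk)
-/

set_option autoImplicit false

namespace LD1

open Complex Set Filter Topology MeasureTheory EW1 EX1 ND1
open scoped ComplexConjugate ContDiff Real

/-- the field -/
noncomputable def LkE (μ : ℂ) (F : ℂ → ℂ) (w : ℂ) : ℂ := F (zw μ w) * pw μ w

theorem Lk_fc {ρ : ℝ} (μ : ℂ) (F : ℂ → ℂ) (n : ℕ) : fc 0 1 μ F ρ n = cz ρ (LkE μ F) n := by
  unfold fc cz LkE zw pw pr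
  congr 1
  refine intervalIntegral.integral_congr fun t _ => ?_
  show F (0 + ((1 : ℝ) : ℂ) * (ρ * exp (t * I) + μ * (ρ * exp (t * I))⁻¹)) *
    (((1 : ℝ) : ℂ) * (ρ * exp (t * I) - μ * (ρ * exp (t * I))⁻¹)) * (ρ * exp (t * I))⁻¹ ^ n = _
  rw [Complex.ofReal_one, one_mul, one_mul, zero_add, inv_pow, zpow_neg, zpow_natCast]

theorem Lk_anti0 {μ : ℂ} (hμ : ‖μ‖ < 1) (hμ0 : μ ≠ 0) {ρ : ℝ} (h1 : ‖μ‖ < ρ) (h2 : ρ < 1) {F : ℂ → ℂ}
    (hF : DifferentiableOn ℂ F (Dp 0 1 μ 1)) (n : ℕ) :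
    cz ρ (LkE μ F) (-(n : ℤ)) = - μ ^ n * cz ρ (LkE μ F) n := by
  have hm : 0 < ‖μ‖ := norm_pos_iff.2 hμ0
  have hρ : 0 < ρ := hm.trans h1
  have h3 : ‖μ‖ < ‖μ‖ / ρ := by
    rw [lt_div_iff₀ hρ]
    nlinarith
  have h4 : ‖μ‖ / ρ < 1 := (div_lt_one hρ).2 h1
  obtain ⟨ρ', hρ'⟩ : ∃ ρ' : ℝ, ρ' = ‖μ‖ / ρ := ⟨_, rfl⟩
  rw [← hρ'] at h3 h4
  have hρ'0 : 0 < ρ' := hm.trans h3
  have hH' : DifferentiableOn ℂ (LkE μ F) (LkA ‖μ‖) := Lk_hol hμ hF
  rw [Lk_indep (norm_nonneg μ) h1 h2 h3 h4 hH' n]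
  set K : ℝ → ℂ := fun s => LkE μ F (pr ρ' s) * pr ρ' s ^ (-(n : ℤ)) with hK
  have hper : Function.Periodic K (2 * π) := fun s => by
    simp only [hK]
    rw [Lk_per]
  have hpt : ∀ t : ℝ, pr ρ t * pr ρ' (arg μ - t) = μ := by
    intro t
    have h5 : μ = ‖μ‖ * exp (arg μ * I) := (Complex.norm_mul_exp_arg_mul_I μ).symm
    have h6 : ρ * ρ' = ‖μ‖ := by
      rw [hρ']
      field_simp
    have h7 : exp (t * I) * exp (((arg μ - t : ℝ) : ℂ) * I) = exp (arg μ * I) := by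
      rw [← Complex.exp_add]
      congr 1
      push_cast
      ring
    unfold pr
    calc _ = ((ρ : ℂ) * ρ') * (exp (t * I) * exp (((arg μ - t : ℝ) : ℂ) * I)) := by ring
      _ = _ := by
        rw [h7, ← Complex.ofReal_mul, h6]
        exact h5.symm
  have hint : ∀ t : ℝ, LkE μ F (pr ρ t) * pr ρ t ^ (-(-(n : ℤ))) = - μ ^ n * K (arg μ - t) := by
    intro t
    have h5 := hpt t
    have h6 := Lk_ne hρ t
    have h7 := Lk_ne hρ'0 (arg μ - t)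
    simp only [hK]
    generalize pr ρ t = P at h5 h6 ⊢
    generalize pr ρ' (arg μ - t) = Q at h5 h7 ⊢
    have h8 : μ * P⁻¹ = Q := by
      rw [← h5]
      field_simp
    have h9 : μ * Q⁻¹ = P := by
      rw [← h5]
      field_simp
    have h10 : LkE μ F P = - LkE μ F Q := by
      unfold LkE zw pw
      rw [h8, h9, add_comm Q P]
      ring
    rw [h10, neg_neg, zpow_neg, zpow_natCast, zpow_natCast]
    have h11 : P ^ n = μ ^ n * (Q ^ n)⁻¹ := by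
      rw [← h5, mul_pow]
      field_simp
    rw [h11]
    ring
  unfold cz
  rw [intervalIntegral.integral_congr (fun t _ => hint t), intervalIntegral.integral_const_mul,
    intervalIntegral.integral_comp_sub_left (fun s => K s)]
  have h5 := hper.intervalIntegral_add_eq (arg μ - 2 * π) 0
  rw [zero_add, sub_add_cancel] at h5
  rw [sub_zero, h5, mul_div_assoc]

theorem Lk_anti {μ : ℂ} (hμ : ‖μ‖ < 1) {ρ : ℝ} (hρ : 0 < ρ) (h1 : ‖μ‖ < ρ) (h2 : ρ < 1) {F : ℂ → ℂ}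
    (hF : DifferentiableOn ℂ F (Dp 0 1 μ 1)) (n : ℕ) :
    cz ρ (LkE μ F) 0 = 0 ∧ cz ρ (LkE μ F) (-((n : ℤ) + 1)) = - μ ^ (n + 1) * cz ρ (LkE μ F) ((n : ℤ) + 1) := by
  by_cases hμ0 : μ = 0
  · subst hμ0
    have hDp : Dp 0 1 0 1 = Metric.ball (0 : ℂ) 1 := by
      ext z
      rw [Metric.mem_ball, dist_zero_right]
      show ‖vv 0 1 0 z‖ < 1 ↔ _
      unfold vv
      simp
    rw [hDp] at hF
    have key : ∀ k : ℕ, cz ρ (LkE 0 F) (-(k : ℤ)) = 0 := by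
      intro k
      have h3 := Lk_circle hρ (LkE 0 F) (-(k : ℤ))
      have h4 : (∮ z in C(0, ρ), LkE 0 F z * z ^ (-(-(k : ℤ)) - 1)) = ∮ z in C(0, ρ), F z * z ^ k := by
        refine circleIntegral.integral_congr hρ.le fun z hz => ?_
        have hz0 : z ≠ 0 := by
          intro h
          rw [mem_sphere_iff_norm, sub_zero, h, norm_zero] at hz
          exact hρ.ne hz
        show LkE 0 F z * z ^ (-(-(k : ℤ)) - 1) = F z * z ^ k
        unfold LkE zw pw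
        rw [zero_mul, add_zero, sub_zero, neg_neg, zpow_sub_one₀ hz0, zpow_natCast]
        field_simp
      have h5 : (∮ z in C(0, ρ), F z * z ^ k) = 0 := by
        have hd : DifferentiableOn ℂ (fun z => F z * z ^ k) (Metric.ball 0 1) :=
          hF.mul (differentiableOn_id.pow k)
        refine Complex.circleIntegral_eq_zero_of_differentiable_on_off_countable hρ.le Set.countable_empty
          (hd.continuousOn.mono (Metric.closedBall_subset_ball h2)) ?_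
        rintro z ⟨hz, -⟩
        exact hd.differentiableAt (Metric.isOpen_ball.mem_nhds (Metric.ball_subset_ball h2.le hz))
      rw [h4, h5] at h3
      exact (mul_eq_zero.1 h3.symm).resolve_left Complex.two_pi_I_ne_zero
    constructor
    · exact_mod_cast key 0
    · have h6 := key (n + 1)
      push_cast at h6
      rw [h6]
      simp
  · constructor
    · have h3 := Lk_anti0 hμ hμ0 h1 h2 hF 0
      simp only [Nat.cast_zero, neg_zero, pow_zero, neg_mul, one_mul] at h3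
      exact self_eq_neg.1 h3
    · have h3 := Lk_anti0 hμ hμ0 h1 h2 hF (n + 1)
      push_cast at h3
      exact h3

theorem Lk_anaG {μ : ℂ} (hμ : ‖μ‖ < 1) {ρ : ℝ} (hρ : 0 < ρ) (h1 : ‖μ‖ < ρ ^ 2) (hρ1 : ρ < 1) {F : ℂ → ℂ}
    (hF : DifferentiableOn ℂ F (Dp 0 1 μ 1)) : Gr (fun n => fc 0 1 μ F ρ (n + 1)) ∧
    ∀ w : ℂ, ‖μ‖ < ‖w‖ → ‖w‖ < 1 → zw μ w ∈ Dp 0 1 μ 1 ∧ F (zw μ w) * pw μ w = sE μ (fun n => fc 0 1 μ F ρ (n + 1)) w := by
  have hμρ : ‖μ‖ < ρ := by nlinarith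
  have hH := Lk_hol hμ hF
  have hH' : DifferentiableOn ℂ (LkE μ F) (LkA ‖μ‖) := hH
  constructor
  · intro s hs hs1
    obtain ⟨s', h3, h4, h5⟩ : ∃ s' : ℝ, s ≤ s' ∧ ‖μ‖ < s' ∧ s' < 1 :=
      ⟨max s ρ, le_max_left _ _, hμρ.trans_le (le_max_right _ _), max_lt hs1 hρ1⟩
    have hs' : 0 < s' := hs.trans_le h3
    obtain ⟨M, hM, hb⟩ := Lk_bd (norm_nonneg μ) h4 h5 hH'
    refine ⟨M / s', fun n => ?_⟩
    show ‖fc 0 1 μ F ρ (n + 1)‖ * s ^ n ≤ M / s'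
    rw [Lk_fc, Lk_indep (norm_nonneg μ) hμρ hρ1 h4 h5 hH', le_div_iff₀ hs']
    have h6 := hb ((n + 1 : ℕ) : ℤ)
    rw [zpow_natCast] at h6
    calc ‖cz s' (LkE μ F) ((n + 1 : ℕ) : ℤ)‖ * s ^ n * s' ≤ ‖cz s' (LkE μ F) ((n + 1 : ℕ) : ℤ)‖ * s' ^ n * s' := by
          gcongr
      _ = ‖cz s' (LkE μ F) ((n + 1 : ℕ) : ℤ)‖ * s' ^ (n + 1) := by ring
      _ ≤ M := h6
  · intro w hw1 hw2
    refine ⟨Lk_mem hμ hw1 hw2, ?_⟩
    have h3 := Lk_laurent (norm_nonneg μ) hH' hμρ hρ1 (w := w) ⟨hw1, hw2⟩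
    have h4 := h3.nat_add_neg
    have h00 := (Lk_anti hμ hρ hμρ hρ1 hF 0).1
    rw [h00, zero_mul, add_zero] at h4
    have h5 := (hasSum_nat_add_iff' 1).2 h4
    rw [Finset.sum_range_one] at h5
    simp only [Nat.cast_zero, neg_zero, zpow_zero, h00, mul_one, add_zero, sub_zero] at h5
    have h6 : (fun n : ℕ => fc 0 1 μ F ρ (n + 1) * (w ^ (n + 1) - (μ * w⁻¹) ^ (n + 1))) =
        fun n : ℕ => cz ρ (LkE μ F) ((n + 1 : ℕ) : ℤ) * w ^ ((n + 1 : ℕ) : ℤ) +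
          cz ρ (LkE μ F) (-((n + 1 : ℕ) : ℤ)) * w ^ (-((n + 1 : ℕ) : ℤ)) := by
      funext n
      have h7 := (Lk_anti hμ hρ hμρ hρ1 hF n).2
      have h8 : (-((n + 1 : ℕ) : ℤ)) = -((n : ℤ) + 1) := by push_cast; ring
      rw [Lk_fc, h8, h7, ← h8, zpow_neg, zpow_natCast]
      have h9 : ((n + 1 : ℕ) : ℤ) = (n : ℤ) + 1 := by push_cast; ring
      rw [h9, mul_pow, inv_pow]
      ring
    unfold sE
    rw [h6]
    exact h5.tsum_eq.symm

end LD1
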