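import Pool.Agent.H1.NV.D
import Pool.Agent.H1.LD.Lk
import Pool.Agent.H1.EX.Xf

/-!
# Backup for NV/Va
-/

set_option autoImplicit false

namespace NV1

open Complex Set Filter Topology MeasureTheory EW1 EX1 LD1
open scoped ComplexConjugate ContDiff Real

theorem Va_zz (μ v : ℂ) : zz 0 1 μ v = v + μ * conj v := by
  unfold zz
  rw [zero_add, Complex.ofReal_one, one_mul]

theorem Va_geo {μ : ℂ} (hμ : ‖μ‖ < 1) {N : Set ℂ} (hN : IsOpen N) (hK : Kp 0 1 μ ⊆ N) :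
    ∃ s : ℝ, 1 < s ∧ ∀ z ∈ Dp 0 1 (μ / (s : ℂ) ^ 2) 1, (s : ℂ) * z ∈ N := by
  have hc : IsCompact (Kp 0 1 μ) := Xf_Kc one_pos hμ
  obtain ⟨δ, hδ, hsub⟩ := hc.exists_thickening_subset_open hN hK
  refine ⟨1 + δ / 4, by linarith, fun z hz => hsub ?_⟩
  set s : ℝ := 1 + δ / 4 with hs
  have hs1 : 1 < s := by linarith
  have hs0 : 0 < s := by linarith
  have hsC : (s : ℂ) ≠ 0 := by exact_mod_cast hs0.ne'
  have hμ1 : ‖μ / (s : ℂ) ^ 2‖ < 1 := by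
    rw [norm_div, norm_pow, Complex.norm_real, Real.norm_eq_abs, abs_of_pos hs0, div_lt_one (by positivity)]
    nlinarith
  set v : ℂ := vv 0 1 (μ / (s : ℂ) ^ 2) z with hv
  have hv1 : ‖v‖ < 1 := hz
  have hz1 : z = v + μ / (s : ℂ) ^ 2 * conj v := by
    rw [← Va_zz, hv, zz_vv one_pos hμ1]
  rw [Metric.mem_thickening_iff]
  refine ⟨v + μ * conj v, ?_, ?_⟩
  · show ‖vv 0 1 μ (v + μ * conj v)‖ ≤ 1
    rw [← Va_zz, vv_zz one_pos hμ]
    exact hv1.le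
  · have h1 : (s : ℂ) * z - (v + μ * conj v) = ((s - 1 : ℝ) : ℂ) * v + μ * ((s⁻¹ - 1 : ℝ) : ℂ) * conj v := by
      rw [hz1]
      push_cast
      field_simp
      ring
    rw [dist_eq_norm, h1]
    have h2 : |s⁻¹ - 1| ≤ s - 1 := by
      have h3 : s⁻¹ < 1 := inv_lt_one_of_one_lt₀ hs1
      rw [abs_of_neg (by linarith)]
      have h4 : 0 < s⁻¹ := inv_pos.2 hs0
      have h5 : s * s⁻¹ = 1 := mul_inv_cancel₀ hs0.ne'
      nlinarith
    calc ‖((s - 1 : ℝ) : ℂ) * v + μ * ((s⁻¹ - 1 : ℝ) : ℂ) * conj v‖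
        ≤ ‖((s - 1 : ℝ) : ℂ) * v‖ + ‖μ * ((s⁻¹ - 1 : ℝ) : ℂ) * conj v‖ := norm_add_le _ _
      _ = (s - 1) * ‖v‖ + ‖μ‖ * |s⁻¹ - 1| * ‖v‖ := by
        rw [norm_mul, norm_mul, norm_mul, Complex.norm_real, Complex.norm_real, RCLike.norm_conj, Real.norm_eq_abs,
          Real.norm_eq_abs, abs_of_pos (by linarith)]
      _ ≤ (s - 1) * 1 + 1 * (s - 1) * 1 := by
        have h6 : 0 ≤ s - 1 := by linarith
        gcongr
      _ < δ := by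
        rw [hs]
        linarith

theorem Va_expa {μ : ℂ} (hμ : ‖μ‖ < 1) {ρ : ℝ} (hρ : 0 < ρ) (h1 : ‖μ‖ < ρ ^ 2) (hρ1 : ρ < 1) {N : Set ℂ} (hN : IsOpen N)
    (hK : Kp 0 1 μ ⊆ N) : ∃ s : ℝ, 1 < s ∧ (∀ w : ℂ, ‖μ‖ < ‖w‖ * s → ‖w‖ < s → zw μ w ∈ N) ∧ ∀ F : ℂ → ℂ, DifferentiableOn ℂ F N →
      Gs s (fun n => fc 0 1 μ F ρ (n + 1)) ∧
      ∀ w : ℂ, ‖μ‖ < ‖w‖ * s → ‖w‖ < s → F (zw μ w) * pw μ w = sE μ (fun n => fc 0 1 μ F ρ (n + 1)) w := by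
  obtain ⟨σ, hσ1, hσ⟩ := Va_geo hμ hN hK
  have hσ0 : 0 < σ := by linarith
  have hσC : (σ : ℂ) ≠ 0 := by exact_mod_cast hσ0.ne'
  have hn : ‖μ / (σ : ℂ) ^ 2‖ = ‖μ‖ / σ ^ 2 := by
    rw [norm_div, norm_pow, Complex.norm_real, Real.norm_eq_abs, abs_of_pos hσ0]
  have hμ1 : ‖μ / (σ : ℂ) ^ 2‖ < 1 := by
    rw [hn, div_lt_one (by positivity)]
    nlinarith
  have hρσ : 0 < ρ / σ := by positivity
  have hρσ1 : ρ / σ < 1 := by
    rw [div_lt_one hσ0]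
    linarith
  have hρσ2 : ‖μ / (σ : ℂ) ^ 2‖ < (ρ / σ) ^ 2 := by
    rw [hn, div_pow]
    gcongr
  have hzw : ∀ w : ℂ, zw μ w = σ * zw (μ / (σ : ℂ) ^ 2) (w / σ) := by
    intro w
    by_cases hw : w = 0
    · subst hw
      simp [zw]
    · unfold zw
      field_simp
  have hpw : ∀ w : ℂ, pw μ w = σ * pw (μ / (σ : ℂ) ^ 2) (w / σ) := by
    intro w
    by_cases hw : w = 0
    · subst hw
      simp [pw]
    · unfold pw
      field_simp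
  have hpr : ∀ t : ℝ, pr ρ t / σ = pr (ρ / σ) t := by
    intro t
    unfold pr
    push_cast
    ring
  refine ⟨(1 + σ) / 2, by linarith, ?_, ?_⟩
  · intro w hw1 hw2
    rw [hzw]
    refine hσ _ (Lk_mem hμ1 ?_ ?_)
    · rw [hn, norm_div, Complex.norm_real, Real.norm_eq_abs, abs_of_pos hσ0, div_lt_div_iff₀ (by positivity) hσ0]
      have h3 : ‖w‖ * ((1 + σ) / 2) ≤ ‖w‖ * σ := by
        apply mul_le_mul_of_nonneg_left _ (norm_nonneg w)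
        linarith
      nlinarith [norm_nonneg w]
    · rw [norm_div, Complex.norm_real, Real.norm_eq_abs, abs_of_pos hσ0, div_lt_one hσ0]
      linarith
  · intro F hF
    have hF1 : DifferentiableOn ℂ (fun z => F (σ * z)) (Dp 0 1 (μ / (σ : ℂ) ^ 2) 1) := by
      refine hF.comp ?_ fun z hz => hσ z hz
      exact (differentiable_id.const_mul (σ : ℂ)).differentiableOn
    obtain ⟨hG, hE⟩ := anaG hμ1 hρσ hρσ2 hρσ1 hF1
    have hfc : ∀ n : ℕ, fc 0 1 (μ / (σ : ℂ) ^ 2) (fun z => F (σ * z)) (ρ / σ) (n + 1) = (σ : ℂ) ^ n * fc 0 1 μ F ρ (n + 1) := by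
      intro n
      rw [Lk_fc, Lk_fc]
      unfold cz
      rw [← mul_div_assoc, ← intervalIntegral.integral_const_mul]
      congr 1
      refine intervalIntegral.integral_congr fun t _ => ?_
      show LkE (μ / (σ : ℂ) ^ 2) (fun z => F (σ * z)) (pr (ρ / σ) t) * pr (ρ / σ) t ^ (-((n + 1 : ℕ) : ℤ)) =
        (σ : ℂ) ^ n * (LkE μ F (pr ρ t) * pr ρ t ^ (-((n + 1 : ℕ) : ℤ)))
      have hp := Lk_ne hρ t
      unfold LkE
      rw [hzw (pr ρ t), hpw (pr ρ t), hpr, ← hpr, div_zpow, zpow_neg, zpow_neg, zpow_natCast, zpow_natCast]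
      field_simp
      ring
    constructor
    · obtain ⟨C, hC⟩ := hG ((1 + σ) / 2 / σ) (by positivity) (by rw [div_lt_one hσ0]; linarith)
      refine ⟨C, fun n => ?_⟩
      have h2 : ‖fc 0 1 (μ / (σ : ℂ) ^ 2) (fun z => F (σ * z)) (ρ / σ) (n + 1)‖ * ((1 + σ) / 2 / σ) ^ n ≤ C := hC n
      show ‖fc 0 1 μ F ρ (n + 1)‖ * ((1 + σ) / 2) ^ n ≤ C
      rw [hfc, norm_mul, norm_pow, Complex.norm_real, Real.norm_eq_abs, abs_of_pos hσ0, div_pow ((1 + σ) / 2)] at h2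
      calc _ = σ ^ n * ‖fc 0 1 μ F ρ (n + 1)‖ * (((1 + σ) / 2) ^ n / σ ^ n) := by field_simp
        _ ≤ C := h2
    · intro w hw1 hw2
      have hw0 : w ≠ 0 := by
        rintro rfl
        rw [norm_zero, zero_mul] at hw1
        linarith [norm_nonneg μ]
      have a1 : ‖μ / (σ : ℂ) ^ 2‖ < ‖w / σ‖ := by
        rw [hn, norm_div, Complex.norm_real, Real.norm_eq_abs, abs_of_pos hσ0, div_lt_div_iff₀ (by positivity) hσ0]
        have h3 : ‖w‖ * ((1 + σ) / 2) ≤ ‖w‖ * σ := by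
          apply mul_le_mul_of_nonneg_left _ (norm_nonneg w)
          linarith
        nlinarith [norm_nonneg w]
      have a2 : ‖w / σ‖ < 1 := by
        rw [norm_div, Complex.norm_real, Real.norm_eq_abs, abs_of_pos hσ0, div_lt_one hσ0]
        linarith
      have h2 := (hE (w / σ) a1 a2).2
      rw [hzw w, hpw w]
      have h3 : F (σ * zw (μ / (σ : ℂ) ^ 2) (w / σ)) * (σ * pw (μ / (σ : ℂ) ^ 2) (w / σ)) =
          σ * (F (σ * zw (μ / (σ : ℂ) ^ 2) (w / σ)) * pw (μ / (σ : ℂ) ^ 2) (w / σ)) := by ring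
      rw [h3, h2]
      unfold sE
      rw [← tsum_mul_left]
      refine tsum_congr fun n => ?_
      show (σ : ℂ) * (fc 0 1 (μ / (σ : ℂ) ^ 2) (fun z => F (σ * z)) (ρ / σ) (n + 1) *
        ((w / σ) ^ (n + 1) - (μ / (σ : ℂ) ^ 2 * (w / σ)⁻¹) ^ (n + 1))) = fc 0 1 μ F ρ (n + 1) * (w ^ (n + 1) - (μ * w⁻¹) ^ (n + 1))
      rw [hfc]
      have h4 : (w / σ) ^ (n + 1) = w ^ (n + 1) / (σ : ℂ) ^ (n + 1) := div_pow _ _ _
      have h5 : (μ / (σ : ℂ) ^ 2 * (w / σ)⁻¹) ^ (n + 1) = (μ * w⁻¹) ^ (n + 1) / (σ : ℂ) ^ (n + 1) := by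
        rw [← div_pow]
        congr 1
        field_simp
      rw [h4, h5]
      field_simp
      ring

end NV1
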